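import Pool.Agent.L0h99.MN.Stm

/-!
# MN IND: the induction
-/

set_option autoImplicit false

namespace Pool.Agent.L0h75.MN

open Finset Pool.Agent.L0h99.MN

variable {V : Type} [Fintype V] [DecidableEq V]

lemma Mu_union (G : SimpleGraph V) {A B : Finset V} (h : Disjoint A B) :
    Mu G (A ∪ B) = Mu G A + Mu G B := by
  unfold Mu
  exact Finset.sum_union h

lemma ee_union (G : SimpleGraph V) {A B : Finset V} (h : Disjoint A B)
    (hab : ∀ x ∈ A, ∀ y ∈ B, ¬ G.Adj x y) :
    ee G (A ∪ B) (A ∪ B) = ee G A A + ee G B B := by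
  unfold ee
  rw [Finset.sum_union h]
  congr 1
  · refine Finset.sum_congr rfl fun x hx => ?_
    have h1 : N G x ∩ (A ∪ B) = N G x ∩ A := by
      ext y
      simp only [mem_inter, mem_union, mem_N]
      constructor
      · rintro ⟨h2, h3 | h3⟩
        · exact ⟨h2, h3⟩
        · exact absurd h2 (hab x hx y h3)
      · rintro ⟨h2, h3⟩
        exact ⟨h2, Or.inl h3⟩
    rw [h1]
  · refine Finset.sum_congr rfl fun x hx => ?_
    have h1 : N G x ∩ (A ∪ B) = N G x ∩ B := by
      ext y
      simp only [mem_inter, mem_union, mem_N]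
      constructor
      · rintro ⟨h2, h3 | h3⟩
        · exact absurd h2.symm (hab y h3 x hx)
        · exact ⟨h2, h3⟩
      · rintro ⟨h2, h3⟩
        exact ⟨h2, Or.inr h3⟩
    rw [h1]

/-- the light case -/
lemma light {G : SimpleGraph V} {W : Finset V} (hI : Inv G W ∅) : ∃ F A Z, Dec G W ∅ F A Z := by
  refine ⟨∅, W, ∅, ?_⟩
  refine ⟨?_, ?_, ?_, ?_, ?_, ?_, ?_, ?_, ?_⟩
  · intro x
    simp
  · exact Finset.disjoint_empty_right _
  · intro T hT
    exact absurd hT (Finset.notMem_empty _)
  · intro T hT
    exact absurd hT (Finset.notMem_empty _)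
  · intro T hT
    exact absurd hT (Finset.notMem_empty _)
  · exact Finset.Subset.refl _
  · intro x _ hx
    exact Finset.notMem_empty _ hx
  · intro T hT
    exact absurd hT (Finset.notMem_empty _)
  · rw [Finset.card_empty, Finset.sum_empty, Finset.sum_empty]
    have h1 : ee G W W ≤ 2 * Mu G W := by
      unfold ee Mu
      rw [Finset.mul_sum]
      refine Finset.sum_le_sum fun x hx => ?_
      obtain ⟨y, hy, hyW⟩ := hI.out x hx (Finset.notMem_empty _)
      have h2 := hI.deg x hx
      have h3 : (N G x ∩ W).card < (N G x).card := by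
        refine Finset.card_lt_card ⟨Finset.inter_subset_left, fun h4 => ?_⟩
        exact hyW (Finset.mem_inter.1 (h4 (mem_N.2 hy))).2
      unfold mu
      omega
    push_cast
    linarith

/-- the invariants after one step -/
lemma inv_red {G : SimpleGraph V} {W H P A : Finset V} (hI : Inv G W H)
    (h1 : ∀ h ∈ H, h ∉ P → ∀ y, y ∈ P ∨ y ∈ A → ¬ G.Adj h y) :
    Inv G (W \ (P ∪ A)) (H \ (P ∪ A)) := by
  refine ⟨?_, ?_, ?_, ?_, ?_⟩
  · exact Finset.sdiff_subset_sdiff hI.sub (Finset.Subset.refl _)
  · intro x hx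
    exact hI.deg x (Finset.mem_sdiff.1 hx).1
  · intro h hh y hy
    obtain ⟨h2, h3⟩ := Finset.mem_sdiff.1 hh
    refine Finset.mem_sdiff.2 ⟨hI.hN h h2 y hy, fun h4 => ?_⟩
    exact h1 h h2 (fun h5 => h3 (Finset.mem_union_left _ h5)) y (Finset.mem_union.1 h4) hy
  · intro h hh g hg
    exact hI.ind h (Finset.mem_sdiff.1 hh).1 g (Finset.mem_sdiff.1 hg).1
  · intro x hx hxH
    obtain ⟨h2, h3⟩ := Finset.mem_sdiff.1 hx
    obtain ⟨y, hy, hyW⟩ := hI.out x h2 (fun h4 => hxH (Finset.mem_sdiff.2 ⟨h4, h3⟩))
    exact ⟨y, hy, fun h4 => hyW (Finset.mem_sdiff.1 h4).1⟩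

/-- IND -/
theorem IND : St_IND := by
  intro V _ _ G hstep W
  induction hn : W.card using Nat.strong_induction_on generalizing W with
  | _ n ih =>
    intro H hI
    rcases H.eq_empty_or_nonempty with hH | hH
    · subst hH
      exact light hI
    rcases hstep W H hI hH with ⟨T, A, hTW, hAW, hTA, hAH, hr, hsc, hh1, hh2⟩ |
      ⟨v, hv, A, hAW, hAH, hsc, hh1, hh2⟩
    · have hTne : T.Nonempty := by
        obtain ⟨c, hc, -⟩ := hr
        exact ⟨c, hc⟩
      have hI' := inv_red hI hh1
      have hlt : (W \ (T ∪ A)).card < n := by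
        rw [← hn]
        refine Finset.card_lt_card ⟨Finset.sdiff_subset, fun h4 => ?_⟩
        obtain ⟨c, hc⟩ := hTne
        exact (Finset.mem_sdiff.1 (h4 (hTW hc))).2 (Finset.mem_union_left _ hc)
      obtain ⟨F', A', Z', hD⟩ := ih _ hlt _ rfl _ hI'
      have hA' : ∀ x ∈ A', x ∈ W ∧ x ∉ T ∧ x ∉ A := by
        intro x hx
        have h5 := Finset.mem_sdiff.1 ((hD.cov x).2 (Or.inl hx))
        exact ⟨h5.1, fun h => h5.2 (Finset.mem_union_left _ h),
          fun h => h5.2 (Finset.mem_union_right _ h)⟩
      have hZ' : ∀ x ∈ Z', x ∈ W ∧ x ∉ T ∧ x ∉ A := by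
        intro x hx
        have h5 := Finset.mem_sdiff.1 ((hD.cov x).2 (Or.inr (Or.inl hx)))
        exact ⟨h5.1, fun h => h5.2 (Finset.mem_union_left _ h),
          fun h => h5.2 (Finset.mem_union_right _ h)⟩
      have hF' : ∀ S ∈ F', ∀ x ∈ S, x ∈ W ∧ x ∉ T ∧ x ∉ A := by
        intro S hS x hx
        have h5 := Finset.mem_sdiff.1 ((hD.cov x).2 (Or.inr (Or.inr ⟨S, hS, hx⟩)))
        exact ⟨h5.1, fun h => h5.2 (Finset.mem_union_left _ h),
          fun h => h5.2 (Finset.mem_union_right _ h)⟩
      have hTF : T ∉ F' := by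
        intro h
        obtain ⟨c, hc⟩ := hTne
        exact (hF' T h c hc).2.1 hc
      have hAA : Disjoint A A' := Finset.disjoint_left.2 fun x h1 h2 => (hA' x h2).2.2 h1
      refine ⟨insert T F', A ∪ A', Z', ?_, ?_, ?_, ?_, ?_, ?_, ?_, ?_, ?_⟩
      · intro x
        constructor
        · intro hx
          by_cases h5 : x ∈ T
          · exact Or.inr (Or.inr ⟨T, Finset.mem_insert_self _ _, h5⟩)
          by_cases h6 : x ∈ A
          · exact Or.inl (Finset.mem_union_left _ h6)
          have h7 : x ∈ W \ (T ∪ A) := Finset.mem_sdiff.2 ⟨hx, fun h => by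
            rcases Finset.mem_union.1 h with h | h
            · exact h5 h
            · exact h6 h⟩
          rcases (hD.cov x).1 h7 with h8 | h8 | ⟨S, hS, h8⟩
          · exact Or.inl (Finset.mem_union_right _ h8)
          · exact Or.inr (Or.inl h8)
          · exact Or.inr (Or.inr ⟨S, Finset.mem_insert_of_mem hS, h8⟩)
        · rintro (h | h | ⟨S, hS, h⟩)
          · rcases Finset.mem_union.1 h with h | h
            · exact hAW h
            · exact (hA' x h).1
          · exact (hZ' x h).1
          · rcases Finset.mem_insert.1 hS with h5 | h5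
            · rw [h5] at h
              exact hTW h
            · exact (hF' S h5 x h).1
      · refine Finset.disjoint_union_left.2 ⟨?_, hD.AZ⟩
        exact Finset.disjoint_left.2 fun x h1 h2 => (hZ' x h2).2.2 h1
      · intro S hS
        rcases Finset.mem_insert.1 hS with h5 | h5
        · rw [h5]
          refine Finset.disjoint_union_left.2 ⟨hTA.symm, ?_⟩
          exact Finset.disjoint_left.2 fun x h1 h2 => (hA' x h1).2.1 h2
        · refine Finset.disjoint_union_left.2 ⟨?_, hD.AT S h5⟩
          exact Finset.disjoint_left.2 fun x h1 h2 => (hF' S h5 x h2).2.2 h1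
      · intro S hS
        rcases Finset.mem_insert.1 hS with h5 | h5
        · rw [h5]
          exact Finset.disjoint_left.2 fun x h1 h2 => (hZ' x h1).2.1 h2
        · exact hD.ZT S h5
      · intro S hS S' hS' hne
        rcases Finset.mem_insert.1 hS with h5 | h5 <;> rcases Finset.mem_insert.1 hS' with h6 | h6
        · exact absurd (h5.trans h6.symm) hne
        · rw [h5]
          exact Finset.disjoint_left.2 fun x h1 h2 => (hF' S' h6 x h2).2.1 h1
        · rw [h6]
          exact Finset.disjoint_left.2 fun x h1 h2 => (hF' S h5 x h1).2.1 h2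
        · exact hD.TT S h5 S' h6 hne
      · intro x hx
        exact (Finset.mem_sdiff.1 (hD.ZH hx)).1
      · intro x hx
        rcases Finset.mem_union.1 hx with h5 | h5
        · exact hAH x h5
        · intro h6
          refine hD.AH x h5 (Finset.mem_sdiff.2 ⟨h6, fun h => ?_⟩)
          rcases Finset.mem_union.1 h with h | h
          · exact (hA' x h5).2.1 h
          · exact (hA' x h5).2.2 h
      · intro S hS
        rcases Finset.mem_insert.1 hS with h5 | h5
        · rw [h5]
          exact hr
        · exact hD.r2 S h5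
      · rw [Finset.card_insert_of_notMem hTF, Finset.sum_insert hTF, Mu_union G hAA,
          ee_union G hAA (fun x hx y hy =>
            hh2 x hx y (hA' y hy).1 (hA' y hy).2.1 (hA' y hy).2.2)]
        have h5 := hD.sc
        push_cast
        linarith
    · have hvA : v ∉ A := fun h => hAH v h hv
      have hh1' : ∀ h ∈ H, h ∉ ({v} : Finset V) → ∀ y, y ∈ ({v} : Finset V) ∨ y ∈ A →
          ¬ G.Adj h y := by
        intro h hh hne y hy
        rcases hy with hy | hy
        · rw [Finset.mem_singleton.1 hy]
          exact hI.ind h hh v hv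
        · exact hh1 h hh (fun h5 => hne (Finset.mem_singleton.2 h5)) y hy
      have hI' := inv_red hI hh1'
      have hlt : (W \ ({v} ∪ A)).card < n := by
        rw [← hn]
        refine Finset.card_lt_card ⟨Finset.sdiff_subset, fun h4 => ?_⟩
        exact (Finset.mem_sdiff.1 (h4 (hI.sub hv))).2
          (Finset.mem_union_left _ (Finset.mem_singleton_self v))
      obtain ⟨F', A', Z', hD⟩ := ih _ hlt _ rfl _ hI'
      have hW' : ∀ x ∈ W \ ({v} ∪ A), x ∈ W ∧ x ≠ v ∧ x ∉ A := by
        intro x hx
        have h5 := Finset.mem_sdiff.1 hx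
        exact ⟨h5.1, fun h => h5.2 (Finset.mem_union_left _ (Finset.mem_singleton.2 h)),
          fun h => h5.2 (Finset.mem_union_right _ h)⟩
      have hA' : ∀ x ∈ A', x ∈ W ∧ x ≠ v ∧ x ∉ A := fun x hx =>
        hW' x ((hD.cov x).2 (Or.inl hx))
      have hZ' : ∀ x ∈ Z', x ∈ W ∧ x ≠ v ∧ x ∉ A := fun x hx =>
        hW' x ((hD.cov x).2 (Or.inr (Or.inl hx)))
      have hF' : ∀ S ∈ F', ∀ x ∈ S, x ∈ W ∧ x ≠ v ∧ x ∉ A := fun S hS x hx =>
        hW' x ((hD.cov x).2 (Or.inr (Or.inr ⟨S, hS, hx⟩)))
      have hvZ : v ∉ Z' := fun h => (hZ' v h).2.1 rfl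
      have hAA : Disjoint A A' := Finset.disjoint_left.2 fun x h1 h2 => (hA' x h2).2.2 h1
      refine ⟨F', A ∪ A', insert v Z', ?_, ?_, ?_, ?_, ?_, ?_, ?_, ?_, ?_⟩
      · intro x
        constructor
        · intro hx
          by_cases h5 : x = v
          · exact Or.inr (Or.inl (Finset.mem_insert.2 (Or.inl h5)))
          by_cases h6 : x ∈ A
          · exact Or.inl (Finset.mem_union_left _ h6)
          have h7 : x ∈ W \ ({v} ∪ A) := Finset.mem_sdiff.2 ⟨hx, fun h => by
            rcases Finset.mem_union.1 h with h | h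
            · exact h5 (Finset.mem_singleton.1 h)
            · exact h6 h⟩
          rcases (hD.cov x).1 h7 with h8 | h8 | h8
          · exact Or.inl (Finset.mem_union_right _ h8)
          · exact Or.inr (Or.inl (Finset.mem_insert_of_mem h8))
          · exact Or.inr (Or.inr h8)
        · rintro (h | h | ⟨S, hS, h⟩)
          · rcases Finset.mem_union.1 h with h | h
            · exact hAW h
            · exact (hA' x h).1
          · rcases Finset.mem_insert.1 h with h5 | h5
            · rw [h5]
              exact hI.sub hv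
            · exact (hZ' x h5).1
          · exact (hF' S hS x h).1
      · refine Finset.disjoint_left.2 fun x h1 h2 => ?_
        rcases Finset.mem_insert.1 h2 with h2 | h2
        · rw [h2] at h1
          rcases Finset.mem_union.1 h1 with h1 | h1
          · exact hvA h1
          · exact (hA' v h1).2.1 rfl
        · rcases Finset.mem_union.1 h1 with h1 | h1
          · exact (hZ' x h2).2.2 h1
          · exact (Finset.disjoint_left.1 hD.AZ) h1 h2
      · intro S hS
        refine Finset.disjoint_union_left.2 ⟨?_, hD.AT S hS⟩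
        exact Finset.disjoint_left.2 fun x h1 h2 => (hF' S hS x h2).2.2 h1
      · intro S hS
        refine Finset.disjoint_left.2 fun x h1 h2 => ?_
        rcases Finset.mem_insert.1 h1 with h1 | h1
        · exact (hF' S hS x h2).2.1 h1
        · exact (Finset.disjoint_left.1 (hD.ZT S hS)) h1 h2
      · exact hD.TT
      · intro x hx
        rcases Finset.mem_insert.1 hx with h5 | h5
        · rw [h5]
          exact hv
        · exact (Finset.mem_sdiff.1 (hD.ZH h5)).1
      · intro x hx
        rcases Finset.mem_union.1 hx with h5 | h5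
        · exact hAH x h5
        · intro h6
          refine hD.AH x h5 (Finset.mem_sdiff.2 ⟨h6, fun h => ?_⟩)
          rcases Finset.mem_union.1 h with h | h
          · exact (hA' x h5).2.1 (Finset.mem_singleton.1 h)
          · exact (hA' x h5).2.2 h
      · exact hD.r2
      · rw [Finset.sum_insert hvZ, Mu_union G hAA,
          ee_union G hAA (fun x hx y hy =>
            hh2 x hx y (hA' y hy).1 (hA' y hy).2.1 (hA' y hy).2.2)]
        have h5 := hD.sc
        linarith

end Pool.Agent.L0h75.MN
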